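import Mathlib
import Pool.Agent.X205.LipSpec.Main

/-!
# MP_e86906_an: the spectrum of compact Lipschitz operators

For every complete pointed metric space `(M, o)`, bounded or not, and every Lipschitz map
`f : M → M` with `f o = o` whose linearisation `T` on the complex Lipschitz-free space is compact,
the set `A(f)` of orders of periodic points `≠ o` is finite and
`σ(T) \ {0} = ⋃_{n ∈ A(f)} {z : z ^ n = 1}`.
-/

set_option autoImplicit false

namespace Pool.Agent.Results.MP_e86906_an.CompactSpectrum

open Pool.Agent.X205.LipSpec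

universe u

/-- `T` is the linearisation of `f`: a bounded operator on `F(M)` with `T δ(x) = δ(f x)`. -/
def IsLinearisation {M : Type u} [MetricSpace M] (o : M) (f : M → M)
    (T : FreeSp M o →L[ℂ] FreeSp M o) : Prop :=
  ∀ x, T (dl M o x) = dl M o (f x)

/-- `σ(T)`: the set of `l` for which `T - l I` is not bijective. -/
def sigma {M : Type u} [MetricSpace M] {o : M} (T : FreeSp M o →L[ℂ] FreeSp M o) : Set ℂ :=
  {l | ¬ Function.Bijective (fun v => T v - l • v)}

/-- `A(f)`: the set of orders of the periodic points of `f` other than the base point `o`. -/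
def orders {M : Type u} (o : M) (f : M → M) : Set ℕ :=
  {n | 1 ≤ n ∧ ∃ x, x ≠ o ∧ f^[n] x = x ∧ ∀ k, 1 ≤ k → k ≤ n - 1 → f^[k] x ≠ x}

/-- **Spectral theorem for compact Lipschitz operators.** -/
theorem result (M : Type u) [MetricSpace M] [CompleteSpace M] (o : M) (f : M → M) (hf0 : f o = o)
    (hf : ∃ L : NNReal, LipschitzWith L f) :
    (∃! T : FreeSp M o →L[ℂ] FreeSp M o, IsLinearisation o f T) ∧
      ∀ T : FreeSp M o →L[ℂ] FreeSp M o, IsLinearisation o f T → IsCompactOperator T →
        (orders o f).Finite ∧ sigma T \ {0} = ⋃ n ∈ orders o f, {z : ℂ | z ^ n = 1} := by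
  obtain ⟨L, hL⟩ := hf
  have hL' : ∀ x y, dist (f x) (f y) ≤ (L : ℝ) * dist x y := hL.dist_le_mul
  refine ⟨exists_unique_hat L.2 hL' hf0, fun T hTf hT => ?_⟩
  have horders : orders o f = periods o f := by
    ext n
    constructor
    · rintro ⟨hn, x, hx, hxn, h⟩
      exact ⟨hn, x, hx, hxn, fun k hk hkn => h k hk (by omega)⟩
    · rintro ⟨hn, x, hx, hxn, h⟩
      exact ⟨hn, x, hx, hxn, fun k hk hkn => h k hk (by omega)⟩
  rw [horders]
  exact main hT hTf L.2 hL' hf0

end Pool.Agent.Results.MP_e86906_an.CompactSpectrum
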